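import Mathlib
import Pool.Agent.Lib.MP_1887ad_co.Main

/-! Two choices delay the random k-SAT threshold for every k at least 26, by the additive amount
`4^k / (3456 k^3)`, with the rule that keeps the clause having more positive literals. -/

set_option autoImplicit false
open Classical

namespace Pool.Agent.Results.MP_1887ad_co.MaxPositive

/-- A `k`-clause on `n` variables: `k` distinct variables, each with a sign
(`true` is a positive literal). -/
abbrev Clause (k n : ℕ) : Type := (Fin k ↪ Fin n) × (Fin k → Bool)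

/-- The number of positive literals of a clause. -/
def positives {k n : ℕ} (c : Clause k n) : ℕ :=
  (Finset.univ.filter (fun j : Fin k => c.2 j = true)).card

/-- The two-choice rule: keep the clause with more positive literals, the first one on a tie. -/
def chosen {k n : ℕ} (p : Clause k n × Clause k n) : Clause k n :=
  if positives p.1 < positives p.2 then p.2 else p.1

/-- Some assignment makes a literal of every clause true. -/
def Satisfiable {k n m : ℕ} (F : Fin m → Clause k n) : Prop :=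
  ∃ a : Fin n → Bool, ∀ i : Fin m, ∃ j : Fin k, a ((F i).1 j) = (F i).2 j

/-- Probability that `m` independent uniform `k`-clauses form a satisfiable formula. -/
noncomputable def satProb (k n m : ℕ) : ℝ :=
  ((Finset.univ.filter (fun F : Fin m → Clause k n => Satisfiable F)).card : ℝ) /
    (Fintype.card (Fin m → Clause k n) : ℝ)

/-- Probability that the formula of the chosen clauses is satisfiable after `m` steps, each step
presenting two independent uniform `k`-clauses. -/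
noncomputable def twoChoiceSatProb (k n m : ℕ) : ℝ :=
  ((Finset.univ.filter (fun ω : Fin m → Clause k n × Clause k n =>
      Satisfiable (fun i => chosen (ω i)))).card : ℝ) /
    (Fintype.card (Fin m → Clause k n × Clause k n) : ℝ)

theorem chosen_eq {k n : ℕ} (p : Clause k n × Clause k n) :
    chosen p = Pool.Agent.Lib.MP_1887ad_co.ch p := by
  unfold chosen Pool.Agent.Lib.MP_1887ad_co.ch Pool.Agent.Lib.MP_1887ad_co.rule
    Pool.Agent.Lib.MP_1887ad_co.rl
  simp only [decide_eq_true_eq]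
  rfl

theorem result (k : ℕ) (hk : 26 ≤ k) (r : ℕ → ℝ)
    (hr : ∀ ε : ℝ, 0 < ε →
      Filter.Tendsto (fun n : ℕ => satProb k n ⌊(r n + ε) * (n : ℝ)⌋₊) Filter.atTop (nhds 0) ∧
      Filter.Tendsto (fun n : ℕ => satProb k n ⌊(r n - ε) * (n : ℝ)⌋₊) Filter.atTop (nhds 1)) :
    Filter.Tendsto
      (fun n : ℕ => twoChoiceSatProb k n ⌊(r n + 4 ^ k / (3456 * (k : ℝ) ^ 3)) * (n : ℝ)⌋₊)
      Filter.atTop (nhds 1) := by
  have h1 := Pool.Agent.Lib.MP_1887ad_co.thr_le k (fun n => r n - 1)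
    (fun n => Finset.univ.filter
      (fun F : Fin ⌊(r n - 1) * (n : ℝ)⌋₊ → Clause k n => Satisfiable F))
    (fun n F hF => by
      rw [Finset.mem_filter] at hF
      exact hF.2) (hr 1 one_pos).2
  apply Pool.Agent.Lib.MP_1887ad_co.sat_whp k (by omega)
    (fun n => ⌊(r n + 4 ^ k / (3456 * (k : ℝ) ^ 3)) * (n : ℝ)⌋₊)
  · filter_upwards [h1] with n hn
    have hkpos : (0 : ℝ) < k := by
      have : 0 < k := by omega
      exact_mod_cast this
    have hc : (2592 : ℝ) * (k : ℝ) ^ 3 ≤ 2 ^ k := by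
      exact_mod_cast Pool.Agent.Lib.MP_1887ad_co.cube_le k hk
    have h4 : (4 : ℝ) ≤ 2 ^ k := by
      calc (4 : ℝ) = 2 ^ 2 := by norm_num
        _ ≤ 2 ^ k := pow_le_pow_right₀ (by norm_num) (by omega)
    have h5 : (4 : ℝ) ^ k = 2 ^ k * 2 ^ k := by
      rw [← mul_pow]
      norm_num
    have hk3 : (0 : ℝ) < (k : ℝ) ^ 3 := by positivity
    have h6 : r n + 4 ^ k / (3456 * (k : ℝ) ^ 3) ≤ 4 ^ k / (864 * (k : ℝ) ^ 3) := by
      have h7 : (4 : ℝ) ^ k / (864 * (k : ℝ) ^ 3) - 4 ^ k / (3456 * (k : ℝ) ^ 3)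
          = 4 ^ k / (1152 * (k : ℝ) ^ 3) := by
        field_simp
        norm_num
      have h8 : 9 / 4 * (2 : ℝ) ^ k ≤ 4 ^ k / (1152 * (k : ℝ) ^ 3) := by
        rw [le_div_iff₀ (by positivity), h5]
        nlinarith
      linarith
    have h9 : (⌊(r n + 4 ^ k / (3456 * (k : ℝ) ^ 3)) * (n : ℝ)⌋₊ : ℝ)
        ≤ 4 ^ k / (864 * (k : ℝ) ^ 3) * n := by
      have h10 : ⌊(r n + 4 ^ k / (3456 * (k : ℝ) ^ 3)) * (n : ℝ)⌋₊
          ≤ ⌊4 ^ k / (864 * (k : ℝ) ^ 3) * n⌋₊ := by
        apply Nat.floor_le_floor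
        gcongr
      calc (⌊(r n + 4 ^ k / (3456 * (k : ℝ) ^ 3)) * (n : ℝ)⌋₊ : ℝ)
          ≤ (⌊4 ^ k / (864 * (k : ℝ) ^ 3) * n⌋₊ : ℝ) := by exact_mod_cast h10
        _ ≤ _ := Nat.floor_le (by positivity)
    have h11 : (864 : ℝ) * (k : ℝ) ^ 3 *
        (⌊(r n + 4 ^ k / (3456 * (k : ℝ) ^ 3)) * (n : ℝ)⌋₊ : ℝ) ≤ (4 : ℝ) ^ k * (n : ℝ) := by
      calc (864 : ℝ) * (k : ℝ) ^ 3 * (⌊(r n + 4 ^ k / (3456 * (k : ℝ) ^ 3)) * (n : ℝ)⌋₊ : ℝ)
          ≤ (864 : ℝ) * (k : ℝ) ^ 3 * (4 ^ k / (864 * (k : ℝ) ^ 3) * n) := by gcongr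
        _ = (4 : ℝ) ^ k * (n : ℝ) := by field_simp
    exact_mod_cast h11
  · intro n ω hω
    rw [Finset.mem_filter]
    refine ⟨Finset.mem_univ _, ?_⟩
    simp only [chosen_eq]
    exact hω

end Pool.Agent.Results.MP_1887ad_co.MaxPositive
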