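import Mathlib
import Pool.Agent.Lib.MP_1887ad_co.OnlineMain

/-! No online rule choosing one of `l` random `k`-clauses per step keeps the formula satisfiable
beyond density `2^(k l) arctan(sqrt(l-1) k log 2) / (sqrt(l-1) k)`. -/

set_option autoImplicit false
open Classical

namespace Pool.Agent.Results.MP_1887ad_co.OnlineUpperBound

/-- A `k`-clause on `n` variables: `k` distinct variables, each with a sign
(`true` is a positive literal). -/
abbrev Clause (k n : ℕ) : Type := (Fin k ↪ Fin n) × (Fin k → Bool)

/-- Some assignment makes a literal of every clause true. -/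
def Satisfiable {k n m : ℕ} (F : Fin m → Clause k n) : Prop :=
  ∃ a : Fin n → Bool, ∀ i : Fin m, ∃ j : Fin k, a ((F i).1 j) = (F i).2 j

/-- A selection rule for `m` steps: from the table `ω` of presented clauses (`l` per step) it
gives, for each step, the index of the selected clause. -/
abbrev Rule (k n l m : ℕ) : Type := (Fin m → Fin l → Clause k n) → Fin m → Fin l

/-- The choice at step `i` depends only on the clauses presented at steps up to `i`. -/
def Online {k n l m : ℕ} (R : Rule k n l m) : Prop :=
  ∀ (ω ω' : Fin m → Fin l → Clause k n) (i : Fin m),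
    (∀ j : Fin m, j ≤ i → ω j = ω' j) → R ω i = R ω' i

/-- Probability, over independent uniform presented clauses, that the selected clauses form a
satisfiable formula. -/
noncomputable def satProb {k n l m : ℕ} (R : Rule k n l m) : ℝ :=
  ((Finset.univ.filter (fun ω : Fin m → Fin l → Clause k n =>
      Satisfiable (fun i => ω i (R ω i)))).card : ℝ) /
    (Fintype.card (Fin m → Fin l → Clause k n) : ℝ)

theorem result (k l : ℕ) (hk : 1 ≤ k) (hl : 2 ≤ l) (α : ℝ)
    (hα : 2 ^ (k * l) * Real.arctan (Real.sqrt ((l : ℝ) - 1) * k * Real.log 2) /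
      (Real.sqrt ((l : ℝ) - 1) * k) < α) :
    ∃ c : ℝ, 0 < c ∧ ∃ N : ℕ, ∀ n : ℕ, N ≤ n → ∀ m : ℕ, α * n ≤ m →
      ∀ (Ω : Type) [MeasurableSpace Ω] (μ : MeasureTheory.Measure Ω)
        [MeasureTheory.IsProbabilityMeasure μ] (R : Ω → Rule k n l m), (∀ s, Online (R s)) →
          ∫ s, satProb (R s) ∂μ ≤ Real.exp (-(c * n)) := by
  obtain ⟨l, rfl⟩ : ∃ l', l = l' + 1 := ⟨l - 1, by omega⟩
  have hl1 : (1 : ℝ) ≤ l := by
    have : 1 ≤ l := by omega
    exact_mod_cast this
  have hcast : ((l + 1 : ℕ) : ℝ) - 1 = l := by push_cast; ring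
  rw [hcast] at hα
  set w := Real.sqrt (l : ℝ) with hwd
  have hw : 0 < w := Real.sqrt_pos.mpr (by linarith)
  have hwl : w ^ 2 = l := Real.sq_sqrt (by linarith)
  have hkR : (0 : ℝ) < k := by exact_mod_cast hk
  have hl2 : 0 < Real.log 2 := Real.log_pos (by norm_num)
  rw [mul_assoc w] at hα
  set B := Real.arctan (w * (k * Real.log 2)) with hB
  have hB0 : 0 < B := by
    rw [hB, ← Real.arctan_zero]
    apply Real.arctan_strictMono
    positivity
  set T : ℝ := 2 ^ (k * (l + 1)) with hT
  have hT0 : 0 < T := by positivity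
  set β := B / (w * k) with hβ
  have hβ0 : 0 < β := by positivity
  set γ := α / T with hγ
  have hβγ : β < γ := by
    rw [hγ, lt_div_iff₀ hT0]
    have : β * T = T * B / (w * k) := by rw [hβ]; ring
    linarith
  set t := (γ - β) / (γ + β) with ht
  have ht0 : 0 < t := div_pos (by linarith) (by linarith)
  set η := (γ - β) / 4 with hη
  have hη0 : 0 < η := by rw [hη]; linarith
  have hγt : γ / (1 + t) = β + 2 * η := by
    have h1 : 1 + t = 2 * γ / (γ + β) := by
      rw [ht]
      have : γ + β ≠ 0 := by linarith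
      field_simp
      ring
    have h2 : γ ≠ 0 := by linarith
    have h3 : γ + β ≠ 0 := by linarith
    rw [h1, hη]
    field_simp
    ring
  refine ⟨t * η, mul_pos ht0 hη0, max k ⌈B / (w * η)⌉₊, fun n hn m hm => ?_⟩
  have hkn : k ≤ n := le_trans (le_max_left _ _) hn
  have hn2 : B / (w * η) ≤ n := by
    have : ⌈B / (w * η)⌉₊ ≤ n := le_trans (le_max_right _ _) hn
    exact Nat.ceil_le.mp this
  have main : ∀ R : Rule k n (l + 1) m, Online R → satProb R ≤ Real.exp (-(t * η * n)) := by
    intro R hR
    have h1 := Pool.Agent.Lib.MP_1887ad_co.Online.bound hk hkn l m w t hw hwl ht0.le R hR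
      (Finset.univ.filter (fun ω : Fin m → Fin (l + 1) → Clause k n =>
        Satisfiable (fun i => ω i (R ω i)))) (fun ω hω => (Finset.mem_filter.mp hω).2)
    refine le_trans h1 (Real.exp_le_exp.mpr ?_)
    have e1 : ((n : ℝ) / k + 1) / w * B = β * n + B / w := by
      rw [hβ]
      field_simp
    have e2 : B / w ≤ η * n := by
      rw [div_le_iff₀ (by positivity)] at hn2
      rw [div_le_iff₀ hw]
      linarith
    have e3 : t * ((β + 2 * η) * n) ≤ m * (t / (1 + t) / T) := by
      rw [← hγt, hγ]
      have : t * (α / T / (1 + t) * n) = α * n * (t / (1 + t) / T) := by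
        field_simp
      rw [this]
      exact mul_le_mul_of_nonneg_right hm (by positivity)
    rw [← hB, ← hT, e1]
    nlinarith [mul_le_mul_of_nonneg_left e2 ht0.le]
  intro Ω _ μ _ R hR
  have h2 : ∫ s, satProb (R s) ∂μ ≤ ∫ _s, Real.exp (-(t * η * n)) ∂μ := by
    apply MeasureTheory.integral_mono_of_nonneg
    · exact Filter.Eventually.of_forall (fun s => by unfold satProb; positivity)
    · exact MeasureTheory.integrable_const _
    · exact Filter.Eventually.of_forall (fun s => main (R s) (hR s))
  simpa using h2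

end Pool.Agent.Results.MP_1887ad_co.OnlineUpperBound
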